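import Mathlib
import Pool.Agent.N131.SR.Rel

/-!
# Ramification of entire curves in projective varieties

Let `X` be a complex projective variety, let `G` be an entire curve in a projective space, and let
`f = P(G)` be a Zariski-dense entire curve in `X`, where `P` is given by forms; the case `G = f` is
allowed. Let `W` be the Wronskian determinant of a basis of the linear span of the coordinates of
`G`, let `T` be the characteristic function and let `N₁(W, r)` be the counting function of the zeros
of `W` in which every zero is counted once.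

If `X` is not uniruled, or if some pluricanonical form on `X` is not zero (in particular if `X` is of
general type), then for all `ε > 0` there are `C` and a set `E` of finite measure with

`T_f(r) ≤ ε T_G(r) + C (N₁(W, r) + log r)` for all `r ≥ 1` outside `E`,

so `T_f(r) ≤ C (N₁(W, r) + log r)` if `G = f`. More generally, let `X` be arbitrary and let `Y` be an
image of `X` under a dominant rational map, with the function field `E`. If `Y` is not uniruled, or if
some pluricanonical form on `Y` is not zero, then the inequality holds for the characteristic of the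
composite of `f` with every rational function on `Y`: entire curves with little ramification move
slowly in the directions which are transversal to the rational curves.
-/

set_option autoImplicit false

namespace Pool.Agent.Results.MP_2a5ae2_ag.NonuniruledRamification

open MeasureTheory MvPolynomial ValueDistribution
open Pool.Agent.TH143.GT (FunField Covered Pluricanonical)
open Pool.Agent.W602.GT (IsForm)

/-- The characteristic function of the curve with the homogeneous coordinates `f`: the mean of the
logarithm of the maximum norm over the circle of the radius `r`. -/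
noncomputable def T {N : ℕ} (f : Fin (N + 1) → ℂ → ℂ) (r : ℝ) : ℝ :=
  Real.circleAverage (fun z => Real.log ‖fun j => f j z‖) 0 r

/-- The counting function of the zeros of `h`; every zero is counted once. -/
noncomputable def N₁ (h : ℂ → ℂ) (r : ℝ) : ℝ :=
  ∑ᶠ z ∈ {z : ℂ | h z = 0 ∧ ‖z‖ ≤ r}, if z = 0 then Real.log r else Real.log (r / ‖z‖)

/-- The Wronskian determinant. -/
noncomputable def W {n : ℕ} (g : Fin n → ℂ → ℂ) (z : ℂ) : ℂ :=
  Matrix.det (Matrix.of fun i j : Fin n => iteratedDeriv i (g j) z)

/-- An entire curve in the projective space of dimension `N`, given as the image of entire functions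
`G` under forms `P` of the same degree `e > 0` which have no common zeros along `G`, with a basis
`g` of the linear span of the functions `G`. -/
structure Curve (N : ℕ) where
  M : ℕ
  G : Fin (M + 1) → ℂ → ℂ
  hol : ∀ k, Differentiable ℂ (G k)
  e : ℕ
  pos : 0 < e
  P : Fin (N + 1) → MvPolynomial (Fin (M + 1)) ℂ
  hom : ∀ j, (P j).IsHomogeneous e
  ne : ∀ z, ∃ j, eval (fun k => G k z) (P j) ≠ 0
  n : ℕ
  g : Fin n → ℂ → ℂ
  ind : LinearIndependent ℂ g
  span : Submodule.span ℂ (Set.range g) = Submodule.span ℂ (Set.range G)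

variable {N : ℕ}

/-- The homogeneous coordinates of the curve. -/
noncomputable def Curve.f (c : Curve N) (z : ℂ) (j : Fin (N + 1)) : ℂ :=
  eval (fun k => c.G k z) (c.P j)

/-- A form vanishes along the curve. -/
def Curve.On (c : Curve N) (F : MvPolynomial (Fin (N + 1)) ℂ) : Prop := ∀ z, eval (c.f z) F = 0

/-- The inequality: for every `ε > 0` there are `C` and a set `E` of finite measure with
`T_f(r) ≤ ε T_G(r) + C (N₁(W, r) + log r)` for all `r ≥ 1` outside `E`. -/
def Curve.Bound (c : Curve N) : Prop :=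
  ∀ ε : ℝ, 0 < ε → ∃ (C : ℝ) (E : Set ℝ), volume E < ⊤ ∧ ∀ r, 1 ≤ r → r ∉ E →
    T (fun j z => c.f z j) r ≤ ε * T c.G r + C * (N₁ (W c.g) r + Real.log r)

/-- The entire functions `f` without common zeros as a curve: `G = f`. -/
noncomputable def Curve.self (f : Fin (N + 1) → ℂ → ℂ) (hf : ∀ j, Differentiable ℂ (f j))
    (h0 : ∀ z, ∃ j, f j z ≠ 0) {n : ℕ} (g : Fin n → ℂ → ℂ) (hg : LinearIndependent ℂ g)
    (hs : Submodule.span ℂ (Set.range g) = Submodule.span ℂ (Set.range f)) : Curve N where
  M := N
  G := f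
  hol := hf
  e := 1
  pos := one_pos
  P := fun j => X j
  hom := fun j => isHomogeneous_X _ j
  ne := fun z => by
    obtain ⟨j, hj⟩ := h0 z
    exact ⟨j, by rwa [eval_X]⟩
  n := n
  g := g
  ind := hg
  span := hs

/-- The field `E` is the function field of varieties which are not uniruled, or which have a nonzero
pluricanonical form. -/
def NonUniruled (E : Type) [Field E] [Algebra ℂ E] : Prop :=
  ¬ Covered E ∨ ∃ v : ℕ, 0 < v ∧ Algebra.trdeg ℂ E = v ∧ ∃ n : ℕ, 0 < n ∧
    ∃ ω : (Fin v → Derivation ℂ E E) → E, Pluricanonical v n ω ∧ ω ≠ 0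

theorem N₁_eq {h : ℂ → ℂ} {r : ℝ} (hr : 1 ≤ r) (hfin : {z : ℂ | h z = 0 ∧ ‖z‖ ≤ r}.Finite) :
    N₁ h r = N131.SR.Nb h r := by
  classical
  have hF : ∀ z, z ∈ hfin.toFinset ↔ h z = 0 ∧ ‖z‖ ≤ r := fun z => by
    rw [Set.Finite.mem_toFinset]
    rfl
  rw [N131.SR.Nb_eq r hfin.toFinset hF]
  unfold N₁
  rw [finsum_mem_eq_finite_toFinset_sum _ hfin]
  have h1 : ∀ z ∈ hfin.toFinset, (if z = 0 then Real.log r else Real.log (r / ‖z‖)) =
      Real.log (r * ‖z‖⁻¹) + if z = 0 then Real.log r else 0 := by
    intro z _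
    by_cases h : z = 0
    · simp [h]
    · simp [h, div_eq_mul_inv]
  rw [Finset.sum_congr rfl h1, Finset.sum_add_distrib, Finset.sum_ite_eq']
  congr 1
  by_cases h0 : h 0 = 0
  · rw [if_pos ((hF 0).2 ⟨h0, by rw [norm_zero]; linarith⟩),
      Set.indicator_of_mem (show (0 : ℂ) ∈ {z : ℂ | h z = 0} from h0)]
    simp
  · rw [if_neg fun h2 => h0 ((hF 0).1 h2).1,
      Set.indicator_of_notMem (show (0 : ℂ) ∉ {z : ℂ | h z = 0} from h0)]
    simp

theorem Curve.datum (c : Curve N) : N131.SR.Datum c.G c.e c.P c.g :=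
  ⟨c.hol, c.pos, c.hom, c.ne, c.ind, c.span⟩

theorem Curve.wr (c : Curve N) {r : ℝ} (hr : 1 ≤ r) :
    N₁ (W c.g) r = N131.SR.Nb (N131.SR.Wr c.g) r := by
  obtain ⟨a, b, ha, hb, hgd, hW⟩ := c.datum.data
  exact N₁_eq hr (N131.SR.zeros_finite (N131.SR.Wr_diff hgd) hW r)

/-- Let `X` be the projective variety with the ideal `p`, the function field `K`, the generic point
`y` and the dimension `w`, and let `c` be a Zariski-dense entire curve `f = P(G)` in `X`.

(1) Let `E` be a field between the field of the complex numbers and `K`, which is the function field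
of varieties that are not uniruled or have a nonzero pluricanonical form. For every rational function
`F / F'` in `E` and every `ε > 0` there are `C` and a set `B` of finite measure with
`T(F(f) / F'(f), r) ≤ ε T_G(r) + C (N₁(W, r) + log r)` for all `r ≥ 1` outside `B`.

(2) If `X` is not uniruled or has a nonzero pluricanonical form, then the inequality holds for the
characteristic of `f`. For the curves with `G = f` this gives `T_f(r) ≤ C (N₁(W, r) + log r)` for all
`r ≥ 1` outside a set of finite measure. -/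
theorem result {p : Ideal (MvPolynomial (Fin (N + 1)) ℂ)} {K : Type} [Field K] [Algebra ℂ K]
    {w : ℕ} {y : Fin (N + 1) → K} (hy : FunField p 1 K w y) (c : Curve N)
    (hc : ∀ F, IsForm F → (F ∈ p ↔ c.On F)) :
    (∀ E : IntermediateField ℂ K, NonUniruled E →
      ∀ (m : ℕ) (F F' : MvPolynomial (Fin (N + 1)) ℂ), F.IsHomogeneous m → F'.IsHomogeneous m →
        W602.GT.val y F' ≠ 0 → W602.GT.val y F / W602.GT.val y F' ∈ E →
          ∀ ε : ℝ, 0 < ε → ∃ (C : ℝ) (B : Set ℝ), volume B < ⊤ ∧ ∀ r, 1 ≤ r → r ∉ B →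
            characteristic (fun z => eval (c.f z) F / eval (c.f z) F') ⊤ r ≤
              ε * T c.G r + C * (N₁ (W c.g) r + Real.log r)) ∧
    (NonUniruled K → c.Bound) ∧
    ∀ (f : Fin (N + 1) → ℂ → ℂ) (hf : ∀ j, Differentiable ℂ (f j)) (h0 : ∀ z, ∃ j, f j z ≠ 0)
      (n : ℕ) (g : Fin n → ℂ → ℂ) (hg : LinearIndependent ℂ g)
      (hs : Submodule.span ℂ (Set.range g) = Submodule.span ℂ (Set.range f)),
      (Curve.self f hf h0 g hg hs).Bound → ∃ (C : ℝ) (E : Set ℝ), volume E < ⊤ ∧
        ∀ r, 1 ≤ r → r ∉ E → T f r ≤ C * (N₁ (W g) r + Real.log r) := by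
  have hI : ∀ F ∈ p, IsForm F → ∀ z, eval (fun j => N131.SR.img c.P c.G j z) F = 0 :=
    fun F hF hFh => (hc F hFh).1 hF
  have hden : ∀ F, IsForm F → (∀ z, eval (fun j => N131.SR.img c.P c.G j z) F = 0) → F ∈ p :=
    fun F hFh h => (hc F hFh).2 h
  refine ⟨?_, ?_, ?_⟩
  · intro E hE m F F' hF hF' hn hmem ε hε
    obtain ⟨C, B, hB, hb⟩ := c.datum.rel hy hI hden E (by
      rintro ⟨h1, h2⟩
      rcases hE with h | ⟨v, hv, hv2, n, hn, ω, hω, hω0⟩
      · exact h h1
      · exact hω0 (h2 v hv hv2 n hn ω hω)) hF hF' hn hmem hε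
    refine ⟨C, B, hB, fun r hr hrB => ?_⟩
    rw [c.wr hr]
    exact hb r hr hrB
  · intro hK ε hε
    have h1 := c.datum.kod (q := fun _ => 1) hy (by
      rintro ⟨h1, h2⟩
      rcases hK with h | ⟨v, hv, hv2, n, hn, ω, hω, hω0⟩
      · exact h h1
      · have h3 : v = w := by
          have := hy.sub.dim
          rw [hv2] at this
          exact_mod_cast this
        subst h3
        exact hω0 (h2 n hn ω hω)) hI hden ε hε
    obtain ⟨C, B, hB, hb⟩ := h1
    refine ⟨C, B, hB, fun r hr hrB => ?_⟩
    have h2 := hb r hr hrB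
    rw [c.wr hr]
    have h3 : N131.SR.Nb (fun _ : ℂ => (1 : ℂ)) r = 0 := by
      rw [N131.SR.Nb_eq r ∅ (fun z => by simp)]
      have h1 : (0 : ℂ) ∉ {z : ℂ | (1 : ℂ) = 0} := one_ne_zero
      rw [Set.indicator_of_notMem h1]
      simp
    rw [h3, add_zero] at h2
    exact h2
  · intro f hf h0 n g hg hs hB
    obtain ⟨C, E, hE, hb⟩ := hB (1 / 2) (by norm_num)
    have hself : (fun (j : Fin (N + 1)) (z : ℂ) => (Curve.self f hf h0 g hg hs).f z j) = f := by
      funext j z
      exact eval_X j
    refine ⟨2 * C, E, hE, fun r hr hrE => ?_⟩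
    have h2 := hb r hr hrE
    rw [hself] at h2
    have h4 : T (Curve.self f hf h0 g hg hs).G r = T f r := rfl
    have h5 : W (Curve.self f hf h0 g hg hs).g = W g := rfl
    rw [h4, h5] at h2
    linarith

end Pool.Agent.Results.MP_2a5ae2_ag.NonuniruledRamification
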