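import Mathlib
import Pool.Agent.N131.FV.Fin

/-!
# MP_44a246_nt: an inequality for all algebraic points of varieties of logarithmic general type over
# function fields, with the truncated counting function and the osculation places

Let `F` be a function field of one variable over `ℂ`, with the algebraic closure `F̄`, let `X` be a
closed subvariety of the projective space of dimension `N` over `F̄`, not necessarily smooth and not
necessarily defined over `ℂ`, and let `D` be the hypersurface section `Q = 0` of `X`, `Q` a form
over `F` (`D = 0` if `Q` is constant). Let `S` be a finite set of places of `F`. If `X - D` is of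
logarithmic general type, then there are a proper closed subset `Z = {A = 0}` of `X` and a number
`C` with

`h(x) ≤ C (d(x) + N^(1)_S(D, x) + ρ_S(x) + 1)`

for all points `x` of `X` over all finite extensions `L` of `F`, off `Z` and off `D`. The degree of
`L` over `F` is not bounded. Here `h` is the height and `d` the logarithmic discriminant,
`N^(1)_S(D, x)` is the truncated counting function of the places of `L` which are not over `S`, and
`ρ_S(x)` is the number, divided by `[L : F]`, of the places `P` of `L` which are not over `S` and at
which `x` osculates a hyperplane: let `V ⊆ L` be the linear span over `ℂ` of the coordinates of `x`,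
of dimension `n`; there are a nonzero `v` in `V` and a `u` in `V` of smallest order at `P` with
`ord_P v ≥ ord_P u + n`. (For general `P` the elements of `V` have the orders
`ord_P u, …, ord_P u + n - 1`.) These are the zeros of the Wronskian determinant of a basis of `V`,
relative to the smallest order.
-/

set_option autoImplicit false

namespace Pool.Agent.Results.MP_44a246_nt.OsculationTruncated

open FF MvPolynomial
open Pool.Agent.W603.PV (disc under)
open Pool.Agent.W602.GT (IsForm LogGeneralType val)
open Pool.Agent.W603.GR (OffQ SubVarP)

variable {F : Type} [Field F] [Algebra ℂ F] [IsFF ℂ F]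

/-- A finite extension of `F`. -/
abbrev Ext (F : Type) [Field F] : Type := IntermediateField F (AlgebraicClosure F)

instance (L : Ext F) [FiniteDimensional F L] : IsFF ℂ L := N131.FV.isFF_inter L

variable {N : ℕ} {L : Ext F} [FiniteDimensional F L]

/-- The minimum of the orders of the nonzero coordinates of `x` at the place `P`. -/
noncomputable def minOrd (P : Place ℂ L) (x : Fin (N + 1) → L) : ℤ :=
  ⨅ c : {c // x c ≠ 0}, P.ord (x c.1)

/-- The height of the point with the homogeneous coordinates `x`: minus the sum over all places of
`L` of the minimum of the orders of the coordinates, divided by `[L : F]`. -/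
noncomputable def height (x : Fin (N + 1) → L) : ℝ :=
  ((-∑ᶠ P : Place ℂ L, minOrd P x : ℤ) : ℝ) / Module.finrank F L

/-- The logarithmic discriminant of `L` over `F`: the sum over all places of `L` of the ramification
index over `F` minus one, divided by `[L : F]`. -/
noncomputable def logDisc (L : Ext F) [FiniteDimensional F L] : ℝ :=
  (disc ℂ F L : ℝ) / Module.finrank F L

/-- The truncated counting function for the divisor `Q = 0`, `Q` a form of degree `d`: the number of
the places of `L` which are not over `S` and at which the local height of `x` for this divisor is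
positive, divided by `[L : F]`. -/
noncomputable def truncated (S : Finset (Place ℂ F)) (Q : MvPolynomial (Fin (N + 1)) F) (d : ℕ)
    (x : Fin (N + 1) → L) : ℝ :=
  ({P : Place ℂ L | under F P ∉ S ∧ d * minOrd P x < P.ord (aeval x Q)}.ncard : ℝ) /
    Module.finrank F L

/-- The linear system of the coordinates of `x`, over the complex numbers. -/
noncomputable abbrev system (x : Fin (N + 1) → L) : Submodule ℂ L := Submodule.span ℂ (Set.range x)

/-- At `P` a nonzero element of the linear system of `x` has an order which is larger than the
smallest order by the dimension of the system, or more. -/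
def Osculates (P : Place ℂ L) (x : Fin (N + 1) → L) : Prop :=
  ∃ v ∈ system x, v ≠ 0 ∧ minOrd P x + Module.finrank ℂ (system x) ≤ P.ord v

/-- The number of the osculation places which are not over `S`, divided by `[L : F]`. -/
noncomputable def osculation (S : Finset (Place ℂ F)) (x : Fin (N + 1) → L) : ℝ :=
  ({P : Place ℂ L | under F P ∉ S ∧ Osculates P x}.ncard : ℝ) / Module.finrank F L

/-- `p` is the homogeneous ideal, `K` the function field, `w` the dimension and `y` the generic point
of a closed subvariety of the projective space over `E` which is not contained in `Q = 0`: the forms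
which vanish at `y` are those of `p`. -/
structure Variety {E : Type} [Field E] (p : Ideal (MvPolynomial (Fin (N + 1)) E))
    (Q : MvPolynomial (Fin (N + 1)) E) (K : Type) [Field K] [Algebra E K] (w : ℕ)
    (y : Fin (N + 1) → K) : Prop where
  sub : SubVarP p Q K w y
  mem : ∀ G, IsForm G → val y G = 0 → G ∈ p

/-- `x` is a point over `L` of the variety with the ideal `p`, off `Q = 0` and off `A = 0`. -/
structure Point (p : Ideal (MvPolynomial (Fin (N + 1)) (AlgebraicClosure F)))
    (Q : MvPolynomial (Fin (N + 1)) F) (A : MvPolynomial (Fin (N + 1)) (AlgebraicClosure F))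
    (x : Fin (N + 1) → L) : Prop where
  ne : x ≠ 0
  mem : ∀ G ∈ p, IsForm G → aeval (fun j => (x j : AlgebraicClosure F)) G = 0
  off : aeval x Q ≠ 0
  gen : aeval (fun j => (x j : AlgebraicClosure F)) A ≠ 0

/-- **Main theorem.** Let `X` be a closed subvariety of the projective space over the algebraic
closure of `F`, with the ideal `p`, let `Q` be a form over `F` of degree `d`, and let `X` minus
`Q = 0` be of logarithmic general type. Then there are a form `A` which does not vanish on `X` and a
number `C` such that `h(x) ≤ C (d(x) + N^(1)_S(D, x) + ρ_S(x) + 1)` for all points `x` of `X` over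
all finite extensions of `F` with `Q(x) ≠ 0` and `A(x) ≠ 0`. -/
theorem result (S : Finset (Place ℂ F)) (Q : MvPolynomial (Fin (N + 1)) F) (d : ℕ)
    (hQ : Q.IsHomogeneous d) (p : Ideal (MvPolynomial (Fin (N + 1)) (AlgebraicClosure F)))
    {K : Type} [Field K] [Algebra (AlgebraicClosure F) K] (w : ℕ) (y : Fin (N + 1) → K)
    (hX : Variety p (MvPolynomial.map (algebraMap F (AlgebraicClosure F)) Q) K w y)
    (hL : LogGeneralType (AlgebraicClosure F) K w
      (OffQ (MvPolynomial.map (algebraMap F (AlgebraicClosure F)) Q) d y)) :
    ∃ (A : MvPolynomial (Fin (N + 1)) (AlgebraicClosure F)) (C : ℝ), IsForm A ∧ A ∉ p ∧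
      ∀ (L : Ext F) [FiniteDimensional F L] (x : Fin (N + 1) → L), Point p Q A x →
        height x ≤ C * (logDisc L + truncated S Q d x + osculation S x + 1) := by
  obtain ⟨A, C, hA, hAp, h⟩ := N131.FV.main_bd S hQ hX.sub hX.mem hL
  refine ⟨A, C, hA, hAp, ?_⟩
  intro L _ x hx
  have h1 := h L x ⟨Function.ne_iff.1 hx.ne, hx.mem, hx.off, hx.gen⟩
  rw [N131.FV.rhs_parts] at h1
  have hf : (0 : ℝ) < Module.finrank F L := by
    exact_mod_cast Module.finrank_pos (R := F) (M := L)
  have h2 : ((N131.FV.hp ℂ x : ℤ) : ℝ) ≤ C * ((disc ℂ F L : ℝ) +
      ({P : Place ℂ L | under F P ∉ S ∧ d * minOrd P x < P.ord (aeval x Q)}.ncard : ℝ) +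
      ({P : Place ℂ L | under F P ∉ S ∧ Osculates P x}.ncard : ℝ) + Module.finrank F L) := by
    exact_mod_cast h1
  unfold height logDisc truncated osculation
  rw [div_le_iff₀ hf]
  refine le_trans h2 (le_of_eq ?_)
  field_simp

end Pool.Agent.Results.MP_44a246_nt.OsculationTruncated
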