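import Mathlib
import Pool.Agent.N131.SR.Gm

/-!
# The special set of the entire curves with little ramification

Let `X` be the complement of the hypersurface `Q = 0` in an arbitrary complex projective algebraic
set, where `Q` is a form of degree `d`; for `d = 0` the set `X` is projective, for `d > 0` it is
affine. Let `G` be an entire curve in a projective space, let `f = P(G)` be an entire curve in the
closure of `X`, where `P` is given by forms, not contained in `Q = 0`, let `W` be the Wronskian
determinant of a basis of the linear span of the coordinates of `G`, let `T` be the characteristic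
function and let `N₁(h, r)` be the counting function of the zeros of `h` in which every zero is
counted once. We consider the inequality: for all `ε > 0` there are `C` and a set `E` of finite
measure with

`T_f(r) ≤ ε T_G(r) + C (N₁(W, r) + N₁(Q(f), r) + log r)` for all `r ≥ 1` outside `E`.

The inequality holds for all curves which are not contained in the Zariski closure of the union of
the images of the nonconstant morphisms of the multiplicative group to `X`. This set is optimal: it
is the Zariski closure of the union of the entire curves in `X` which violate the inequality.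
-/

set_option autoImplicit false

namespace Pool.Agent.Results.MP_160ed4_ag.RamificationSpecialSet

open MeasureTheory MvPolynomial
open scoped LinearAlgebra.Projectivization
open Pool.Agent.TH143.EL (Rep)
open Pool.Agent.W602.GT (IsForm)
open Pool.Agent.Y377.IL (GmCurve)

/-- The characteristic function of the curve with the homogeneous coordinates `f`: the mean of the
logarithm of the maximum norm over the circle of the radius `r`. -/
noncomputable def T {N : ℕ} (f : Fin (N + 1) → ℂ → ℂ) (r : ℝ) : ℝ :=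
  Real.circleAverage (fun z => Real.log ‖fun j => f j z‖) 0 r

/-- The counting function of the zeros of `h`; every zero is counted once. -/
noncomputable def N₁ (h : ℂ → ℂ) (r : ℝ) : ℝ :=
  ∑ᶠ z ∈ {z : ℂ | h z = 0 ∧ ‖z‖ ≤ r}, if z = 0 then Real.log r else Real.log (r / ‖z‖)

/-- The Wronskian determinant. -/
noncomputable def W {n : ℕ} (g : Fin n → ℂ → ℂ) (z : ℂ) : ℂ :=
  Matrix.det (Matrix.of fun i j : Fin n => iteratedDeriv i (g j) z)

/-- An entire curve in the projective space of dimension `N`, given as the image of entire functions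
`G` under forms `P` of the same degree `e > 0` which have no common zeros along `G`, with a basis
`g` of the linear span of the functions `G`. -/
structure Curve (N : ℕ) where
  M : ℕ
  G : Fin (M + 1) → ℂ → ℂ
  hol : ∀ k, Differentiable ℂ (G k)
  e : ℕ
  pos : 0 < e
  P : Fin (N + 1) → MvPolynomial (Fin (M + 1)) ℂ
  hom : ∀ j, (P j).IsHomogeneous e
  ne : ∀ z, ∃ j, eval (fun k => G k z) (P j) ≠ 0
  n : ℕ
  g : Fin n → ℂ → ℂ
  ind : LinearIndependent ℂ g
  span : Submodule.span ℂ (Set.range g) = Submodule.span ℂ (Set.range G)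

variable {N : ℕ}

/-- The homogeneous coordinates of the curve. -/
noncomputable def Curve.f (c : Curve N) (z : ℂ) (j : Fin (N + 1)) : ℂ :=
  eval (fun k => c.G k z) (c.P j)

/-- A form vanishes along the curve. -/
def Curve.On (c : Curve N) (F : MvPolynomial (Fin (N + 1)) ℂ) : Prop := ∀ z, eval (c.f z) F = 0

/-- The inequality: for every `ε > 0` there are `C` and a set `E` of finite measure with
`T_f(r) ≤ ε T_G(r) + C (N₁(W, r) + N₁(Q(f), r) + log r)` for all `r ≥ 1` outside `E`. -/
def Curve.Bound (c : Curve N) (Q : MvPolynomial (Fin (N + 1)) ℂ) : Prop :=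
  ∀ ε : ℝ, 0 < ε → ∃ (C : ℝ) (E : Set ℝ), volume E < ⊤ ∧ ∀ r, 1 ≤ r → r ∉ E →
    T (fun j z => c.f z j) r ≤ ε * T c.G r +
      C * (N₁ (W c.g) r + N₁ (fun z => eval (c.f z) Q) r + Real.log r)

/-- The Zariski closure of a set of points of the projective space. -/
def ZClosure (S : Set (ℙ ℂ (Fin (N + 1) → ℂ))) : Set (ℙ ℂ (Fin (N + 1) → ℂ)) :=
  {p | ∀ G : MvPolynomial (Fin (N + 1)) ℂ, IsForm G → (∀ x ∈ S, eval x.rep G = 0) →
    eval p.rep G = 0}

/-- The special set of the nonconstant morphisms of the multiplicative group to the complement of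
`Q = 0` in the algebraic set of `I`. -/
def SpGm (I : Ideal (MvPolynomial (Fin (N + 1)) ℂ)) (Q : MvPolynomial (Fin (N + 1)) ℂ) :
    Set (ℙ ℂ (Fin (N + 1) → ℂ)) :=
  ZClosure {x | ∃ p, GmCurve I Q p ∧ ∃ t, t ≠ 0 ∧ Rep x fun j => (p j).eval t}

/-- The special set of the entire curves in the complement of `Q = 0` in the algebraic set of `I`
which violate the inequality. -/
def SpW (I : Ideal (MvPolynomial (Fin (N + 1)) ℂ)) (Q : MvPolynomial (Fin (N + 1)) ℂ) :
    Set (ℙ ℂ (Fin (N + 1) → ℂ)) :=
  ZClosure {x | ∃ c : Curve N, (∀ F ∈ I, IsForm F → c.On F) ∧ (∀ z, eval (c.f z) Q ≠ 0) ∧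
    ¬ c.Bound Q ∧ ∃ z, Rep x (c.f z)}

theorem N₁_eq {h : ℂ → ℂ} {r : ℝ} (hr : 1 ≤ r) (hfin : {z : ℂ | h z = 0 ∧ ‖z‖ ≤ r}.Finite) :
    N₁ h r = N131.SR.Nb h r := by
  classical
  have hF : ∀ z, z ∈ hfin.toFinset ↔ h z = 0 ∧ ‖z‖ ≤ r := fun z => by
    rw [Set.Finite.mem_toFinset]
    rfl
  rw [N131.SR.Nb_eq r hfin.toFinset hF]
  unfold N₁
  rw [finsum_mem_eq_finite_toFinset_sum _ hfin]
  have h1 : ∀ z ∈ hfin.toFinset, (if z = 0 then Real.log r else Real.log (r / ‖z‖)) =
      Real.log (r * ‖z‖⁻¹) + if z = 0 then Real.log r else 0 := by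
    intro z _
    by_cases h : z = 0
    · simp [h]
    · simp [h, div_eq_mul_inv]
  rw [Finset.sum_congr rfl h1, Finset.sum_add_distrib, Finset.sum_ite_eq']
  congr 1
  by_cases h0 : h 0 = 0
  · rw [if_pos ((hF 0).2 ⟨h0, by rw [norm_zero]; linarith⟩),
      Set.indicator_of_mem (show (0 : ℂ) ∈ {z : ℂ | h z = 0} from h0)]
    simp
  · rw [if_neg fun h2 => h0 ((hF 0).1 h2).1,
      Set.indicator_of_notMem (show (0 : ℂ) ∉ {z : ℂ | h z = 0} from h0)]
    simp

theorem Curve.datum (c : Curve N) : N131.SR.Datum c.G c.e c.P c.g :=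
  ⟨c.hol, c.pos, c.hom, c.ne, c.ind, c.span⟩

theorem Curve.wr (c : Curve N) {r : ℝ} (hr : 1 ≤ r) :
    N₁ (W c.g) r = N131.SR.Nb (N131.SR.Wr c.g) r := by
  obtain ⟨a, b, ha, hb, hgd, hW⟩ := c.datum.data
  exact N₁_eq hr (N131.SR.zeros_finite (N131.SR.Wr_diff hgd) hW r)

theorem Curve.bound_iff (c : Curve N) {Q : MvPolynomial (Fin (N + 1)) ℂ}
    (hq : ∃ z, eval (c.f z) Q ≠ 0) :
    c.Bound Q ↔ N131.SR.RB c.G (N131.SR.img c.P c.G) (N131.SR.Wr c.g)
      (fun z => eval (fun j => N131.SR.img c.P c.G j z) Q) := by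
  have hqd : Differentiable ℂ fun z => eval (c.f z) Q :=
    N131.SR.form_diff (N131.SR.img_diff c.hol) Q
  have e2 : ∀ r, 1 ≤ r → N₁ (fun z => eval (c.f z) Q) r =
      N131.SR.Nb (fun z => eval (fun j => N131.SR.img c.P c.G j z) Q) r := fun r hr =>
    N₁_eq hr (N131.SR.zeros_finite hqd hq r)
  constructor
  · intro h ε hε
    obtain ⟨C, E, hE, hb⟩ := h ε hε
    refine ⟨C, E, hE, fun r hr hrE => ?_⟩
    have h1 := hb r hr hrE
    rw [c.wr hr, e2 r hr] at h1
    exact h1
  · intro h ε hε
    obtain ⟨C, E, hE, hb⟩ := h ε hε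
    refine ⟨C, E, hE, fun r hr hrE => ?_⟩
    rw [c.wr hr, e2 r hr]
    exact hb r hr hrE

theorem mem_SpGm {I : Ideal (MvPolynomial (Fin (N + 1)) ℂ)} {Q : MvPolynomial (Fin (N + 1)) ℂ}
    {v : Fin (N + 1) → ℂ} {x : ℙ ℂ (Fin (N + 1) → ℂ)} (hx : Rep x v)
    (h : ∀ F : MvPolynomial (Fin (N + 1)) ℂ, IsForm F →
      (∀ p : Fin (N + 1) → Polynomial ℂ, GmCurve I Q p → ∀ t, t ≠ 0 →
        eval (fun j => (p j).eval t) F = 0) → eval v F = 0) : x ∈ SpGm I Q := by
  intro G hG hS
  rw [TH600.LE.rep_form hx hG]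
  apply h G hG
  intro p hp t ht
  by_cases hv : (fun j => (p j).eval t) = 0
  · obtain ⟨m, hm⟩ := id hG
    rcases Nat.eq_zero_or_pos m with h0 | h0
    · subst h0
      obtain ⟨c, rfl⟩ := N131.SR.const_form hm
      obtain ⟨-, -, s, u, j, k, hs, hu, hsu⟩ := id hp
      rw [eval_C]
      have hne : (fun j => (p j).eval s) ≠ 0 := by
        intro h1
        apply hsu
        rw [show (p j).eval s = 0 from congrFun h1 j, show (p k).eval s = 0 from congrFun h1 k]
        ring
      have h2 := hS (Projectivization.mk ℂ _ hne) ⟨p, hp, s, hs, hne, rfl⟩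
      rwa [eval_C] at h2
    · have h3 : (fun j : Fin (N + 1) => (p j).eval t) = fun j => (0 : ℂ) * (p j).eval t := by
        conv_lhs => rw [hv]
        funext j
        simp
      rw [h3, Y377.IL.eval_scale hm, zero_pow h0.ne', zero_mul]
  · have hx2 : Rep (Projectivization.mk ℂ _ hv) (fun j => (p j).eval t) := ⟨hv, rfl⟩
    have h2 := hS _ ⟨p, hp, t, ht, hx2⟩
    rwa [TH600.LE.rep_form hx2 hG] at h2

/-- Let `Q` be a form of degree `d`, let `I` be an ideal and let `X` be the complement of `Q = 0` in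
the algebraic set of `I`. The inequality holds for all entire curves in this algebraic set which are
not contained in `Q = 0` nor in the Zariski closure of the union of the images of the nonconstant
morphisms of the multiplicative group to `X`, and this closure is the Zariski closure of the union of
the entire curves in `X` which violate the inequality. -/
theorem result {Q : MvPolynomial (Fin (N + 1)) ℂ} {d : ℕ} (hQ : Q.IsHomogeneous d)
    (I : Ideal (MvPolynomial (Fin (N + 1)) ℂ)) :
    (∀ c : Curve N, (∀ F ∈ I, IsForm F → c.On F) → ¬ c.On Q →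
      c.Bound Q ∨ ∀ z x, Rep x (c.f z) → x ∈ SpGm I Q) ∧
    SpW I Q = SpGm I Q := by
  have key : ∀ c : Curve N, (∀ F ∈ I, IsForm F → c.On F) → ¬ c.On Q → c.Bound Q ∨
      ∀ z x, Rep x (c.f z) → x ∈ SpGm I Q := by
    intro c hI hq
    unfold Curve.On at hq
    push Not at hq
    rcases c.datum.gm hQ hq hI with h | h
    · exact Or.inl ((c.bound_iff hq).2 h)
    · right
      intro z x hx
      exact mem_SpGm hx fun F hF hp => h F hF hp z
  refine ⟨key, ?_⟩
  apply Set.Subset.antisymm
  · intro x hx G hG hGS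
    apply hx G hG
    rintro x' ⟨c, hI, hq, hB, z, hz⟩
    rcases key c hI (fun h => hq 0 (h 0)) with h | h
    · exact absurd h hB
    · exact h z x' hz G hG hGS
  · intro x hx G hG hGS
    apply hx G hG
    rintro x' ⟨p₀, hp₀, t, ht, hx'⟩
    obtain ⟨D, p, hDp, hp, hne⟩ := N131.SR.gm_reduce hQ hp₀
    have hev : (fun j => (p₀ j).eval t) = fun j => D.eval t * (p j).eval t := by
      funext j
      rw [hDp j, Polynomial.eval_mul]
    have hDt : D.eval t ≠ 0 := by
      intro h1
      apply hx'.1
      rw [hev]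
      funext j
      rw [h1, zero_mul]
      rfl
    rw [hev, TH143.EL.rep_smul hDt] at hx'
    apply hGS
    obtain ⟨m, G, P, D, hG, hR⟩ := N131.SR.exists_gm (Q := Q) hp hne
    obtain ⟨c, hc1, hc2⟩ : ∃ c : Curve N, (∀ z, c.f z = fun j => (p j).eval (Complex.exp z)) ∧
        (c.Bound Q → (∃ z, eval (c.f z) Q ≠ 0) → False) :=
      ⟨⟨1, G, D.hG, m, D.he, P, D.hP, D.h0, 2, G, D.ind, rfl⟩, fun z => funext fun j => hG j z,
        fun hB hq => hR ((Curve.bound_iff _ hq).1 hB)⟩
    have hq : ∀ z, eval (c.f z) Q ≠ 0 := by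
      intro z
      rw [hc1 z]
      exact hp.1 _ (Complex.exp_ne_zero z)
    refine ⟨c, fun F hF hFh z => ?_, hq, fun hB => hc2 hB ⟨0, hq 0⟩, Complex.log t, ?_⟩
    · rw [hc1 z]
      exact hp.2.1 _ (Complex.exp_ne_zero z) F hF hFh
    · rw [hc1, Complex.exp_log ht]
      exact hx'

end Pool.Agent.Results.MP_160ed4_ag.RamificationSpecialSet
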