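import Mathlib
import Pool.Agent.N131.SR.Gt

/-!
# Ramification of entire curves in varieties of logarithmic general type

Let `X` be the complement of the hypersurface `Q = 0` in a complex projective variety, where `Q` is a
form of degree `d`; for `d = 0` the variety `X` is projective, for `d > 0` it is affine. We prove an
inequality of the type of the second main theorem of Nevanlinna theory, with ramification, for the
entire curves in the closure of `X` for **every** such `X` of logarithmic general type. Let
`f = (f_0, …, f_N)` be such a curve which is Zariski-dense, let `W` be the Wronskian determinant of a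
basis of the linear span of the entire functions `f_j`, let `T` be the characteristic function of `f`
and let `N₁(h, r)` be the counting function of the zeros of `h` in which every zero is counted once.
Then there are a number `C` and a set `E` of finite measure with

`T(r) ≤ C (N₁(W, r) + N₁(Q(f), r) + log r)` for all `r ≥ 1` outside `E`.

So all Zariski-dense entire curves in a variety of logarithmic general type have many points of
degeneracy of the osculating spaces. The same holds if all subvarieties of `X` of positive dimension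
not contained in a hypersurface `A = 0` are of logarithmic general type, for all `f` with
`A(f) ≠ 0`, `Q(f) ≠ 0`.

More generally, let `f = P(G)` where `G` is an entire curve in a projective space and `P` is given by
forms, and let `W` be the Wronskian of `G`. Then for all `ε > 0` there are `C` and `E` with

`T_f(r) ≤ ε T_G(r) + C (N₁(W, r) + N₁(Q(f), r) + log r)` for all `r ≥ 1` outside `E`.
-/

set_option autoImplicit false

namespace Pool.Agent.Results.MP_64ff02_ag.WronskianRamification

open MeasureTheory MvPolynomial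
open Pool.Agent.TH143.GT (FunField)
open Pool.Agent.W602.GT (IsForm LogGeneralType)
open Pool.Agent.W603.GR (OffQ SubLogGT)
open Pool.Agent.W603.PV (IsHomog)

/-- The characteristic function of the curve with the homogeneous coordinates `f`: the mean of the
logarithm of the maximum norm over the circle of the radius `r`. -/
noncomputable def T {N : ℕ} (f : Fin (N + 1) → ℂ → ℂ) (r : ℝ) : ℝ :=
  Real.circleAverage (fun z => Real.log ‖fun j => f j z‖) 0 r

/-- The counting function of the zeros of `h`; every zero is counted once. -/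
noncomputable def N₁ (h : ℂ → ℂ) (r : ℝ) : ℝ :=
  ∑ᶠ z ∈ {z : ℂ | h z = 0 ∧ ‖z‖ ≤ r}, if z = 0 then Real.log r else Real.log (r / ‖z‖)

/-- The Wronskian determinant. -/
noncomputable def W {n : ℕ} (g : Fin n → ℂ → ℂ) (z : ℂ) : ℂ :=
  Matrix.det (Matrix.of fun i j : Fin n => iteratedDeriv i (g j) z)

/-- An entire curve in the projective space of dimension `N`, given as the image of entire functions
`G` under forms `P` of the same degree `e > 0` which have no common zeros along `G`, with a basis
`g` of the linear span of the functions `G`. -/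
structure Curve (N : ℕ) where
  M : ℕ
  G : Fin (M + 1) → ℂ → ℂ
  hol : ∀ k, Differentiable ℂ (G k)
  e : ℕ
  pos : 0 < e
  P : Fin (N + 1) → MvPolynomial (Fin (M + 1)) ℂ
  hom : ∀ j, (P j).IsHomogeneous e
  ne : ∀ z, ∃ j, eval (fun k => G k z) (P j) ≠ 0
  n : ℕ
  g : Fin n → ℂ → ℂ
  ind : LinearIndependent ℂ g
  span : Submodule.span ℂ (Set.range g) = Submodule.span ℂ (Set.range G)

variable {N : ℕ}

/-- The homogeneous coordinates of the curve. -/
noncomputable def Curve.f (c : Curve N) (z : ℂ) (j : Fin (N + 1)) : ℂ :=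
  eval (fun k => c.G k z) (c.P j)

/-- A form vanishes along the curve. -/
def Curve.On (c : Curve N) (F : MvPolynomial (Fin (N + 1)) ℂ) : Prop := ∀ z, eval (c.f z) F = 0

/-- The inequality: for every `ε > 0` there are `C` and a set `E` of finite measure with
`T_f(r) ≤ ε T_G(r) + C (N₁(W, r) + N₁(Q(f), r) + log r)` for all `r ≥ 1` outside `E`. -/
def Curve.Bound (c : Curve N) (Q : MvPolynomial (Fin (N + 1)) ℂ) : Prop :=
  ∀ ε : ℝ, 0 < ε → ∃ (C : ℝ) (E : Set ℝ), volume E < ⊤ ∧ ∀ r, 1 ≤ r → r ∉ E →
    T (fun j z => c.f z j) r ≤ ε * T c.G r +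
      C * (N₁ (W c.g) r + N₁ (fun z => eval (c.f z) Q) r + Real.log r)

/-- The entire functions `f` without common zeros as a curve: `G = f`. -/
noncomputable def Curve.self (f : Fin (N + 1) → ℂ → ℂ) (hf : ∀ j, Differentiable ℂ (f j))
    (h0 : ∀ z, ∃ j, f j z ≠ 0) {n : ℕ} (g : Fin n → ℂ → ℂ) (hg : LinearIndependent ℂ g)
    (hs : Submodule.span ℂ (Set.range g) = Submodule.span ℂ (Set.range f)) : Curve N where
  M := N
  G := f
  hol := hf
  e := 1
  pos := one_pos
  P := fun j => X j
  hom := fun j => isHomogeneous_X _ j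
  ne := fun z => by
    obtain ⟨j, hj⟩ := h0 z
    exact ⟨j, by rwa [eval_X]⟩
  n := n
  g := g
  ind := hg
  span := hs

theorem N₁_eq {h : ℂ → ℂ} {r : ℝ} (hr : 1 ≤ r) (hfin : {z : ℂ | h z = 0 ∧ ‖z‖ ≤ r}.Finite) :
    N₁ h r = N131.SR.Nb h r := by
  classical
  have hF : ∀ z, z ∈ hfin.toFinset ↔ h z = 0 ∧ ‖z‖ ≤ r := fun z => by
    rw [Set.Finite.mem_toFinset]
    rfl
  rw [N131.SR.Nb_eq r hfin.toFinset hF]
  unfold N₁
  rw [finsum_mem_eq_finite_toFinset_sum _ hfin]
  have h1 : ∀ z ∈ hfin.toFinset, (if z = 0 then Real.log r else Real.log (r / ‖z‖)) =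
      Real.log (r * ‖z‖⁻¹) + if z = 0 then Real.log r else 0 := by
    intro z _
    by_cases h : z = 0
    · simp [h]
    · simp [h, div_eq_mul_inv]
  rw [Finset.sum_congr rfl h1, Finset.sum_add_distrib, Finset.sum_ite_eq']
  congr 1
  by_cases h0 : h 0 = 0
  · rw [if_pos ((hF 0).2 ⟨h0, by rw [norm_zero]; linarith⟩),
      Set.indicator_of_mem (show (0 : ℂ) ∈ {z : ℂ | h z = 0} from h0)]
    simp
  · rw [if_neg fun h2 => h0 ((hF 0).1 h2).1,
      Set.indicator_of_notMem (show (0 : ℂ) ∉ {z : ℂ | h z = 0} from h0)]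
    simp

theorem Curve.datum (c : Curve N) : N131.SR.Datum c.G c.e c.P c.g :=
  ⟨c.hol, c.pos, c.hom, c.ne, c.ind, c.span⟩

theorem Curve.wr (c : Curve N) {r : ℝ} (hr : 1 ≤ r) :
    N₁ (W c.g) r = N131.SR.Nb (N131.SR.Wr c.g) r := by
  obtain ⟨a, b, ha, hb, hgd, hW⟩ := c.datum.data
  exact N₁_eq hr (N131.SR.zeros_finite (N131.SR.Wr_diff hgd) hW r)

theorem Curve.bound_iff (c : Curve N) {Q : MvPolynomial (Fin (N + 1)) ℂ}
    (hq : ∃ z, eval (c.f z) Q ≠ 0) :
    c.Bound Q ↔ N131.SR.RB c.G (N131.SR.img c.P c.G) (N131.SR.Wr c.g)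
      (fun z => eval (fun j => N131.SR.img c.P c.G j z) Q) := by
  have hqd : Differentiable ℂ fun z => eval (c.f z) Q :=
    N131.SR.form_diff (N131.SR.img_diff c.hol) Q
  have e2 : ∀ r, 1 ≤ r → N₁ (fun z => eval (c.f z) Q) r =
      N131.SR.Nb (fun z => eval (fun j => N131.SR.img c.P c.G j z) Q) r := fun r hr =>
    N₁_eq hr (N131.SR.zeros_finite hqd hq r)
  constructor
  · intro h ε hε
    obtain ⟨C, E, hE, hb⟩ := h ε hε
    refine ⟨C, E, hE, fun r hr hrE => ?_⟩
    have h1 := hb r hr hrE
    rw [c.wr hr, e2 r hr] at h1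
    exact h1
  · intro h ε hε
    obtain ⟨C, E, hE, hb⟩ := h ε hε
    refine ⟨C, E, hE, fun r hr hrE => ?_⟩
    rw [c.wr hr, e2 r hr]
    exact hb r hr hrE

/-- Let `Q` be a form of degree `d`.

(1) Let `X` be the complement of `Q = 0` in the projective variety with the ideal `p`, the function
field `K`, the generic point `y` and the dimension `w`. If `X` is of logarithmic general type, then
the inequality holds for all Zariski-dense entire curves in the closure of `X`.

(2) Let `p` be a homogeneous ideal and `A` a form such that all closed subvarieties of positive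
dimension of the complement `X` of `Q = 0` in the algebraic set of `p` which are not contained in
`A = 0` are of logarithmic general type. Then the inequality holds for all entire curves in the
closure of `X` which are contained neither in `A = 0` nor in `Q = 0`.

For the curves with `G = f` the inequality of (1) and (2) gives
`T_f(r) ≤ C (N₁(W, r) + N₁(Q(f), r) + log r)` for all `r ≥ 1` outside a set of finite measure. -/
theorem result {Q : MvPolynomial (Fin (N + 1)) ℂ} {d : ℕ} (hQ : Q.IsHomogeneous d) :
    (∀ (p : Ideal (MvPolynomial (Fin (N + 1)) ℂ)) (K : Type) [Field K] [Algebra ℂ K] (w : ℕ)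
      (y : Fin (N + 1) → K), FunField p Q K w y → LogGeneralType ℂ K w (OffQ Q d y) →
      ∀ c : Curve N, (∀ F, IsForm F → (F ∈ p ↔ c.On F)) → c.Bound Q) ∧
    (∀ (p : Ideal (MvPolynomial (Fin (N + 1)) ℂ)), IsHomog p →
      ∀ A : MvPolynomial (Fin (N + 1)) ℂ, IsForm A → SubLogGT p Q d A →
        ∀ c : Curve N, (∀ F ∈ p, IsForm F → c.On F) → ¬ c.On A → ¬ c.On Q → c.Bound Q) ∧
    ∀ (f : Fin (N + 1) → ℂ → ℂ) (hf : ∀ j, Differentiable ℂ (f j)) (h0 : ∀ z, ∃ j, f j z ≠ 0)
      (n : ℕ) (g : Fin n → ℂ → ℂ) (hg : LinearIndependent ℂ g)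
      (hs : Submodule.span ℂ (Set.range g) = Submodule.span ℂ (Set.range f)),
      (Curve.self f hf h0 g hg hs).Bound Q → ∃ (C : ℝ) (E : Set ℝ), volume E < ⊤ ∧
        ∀ r, 1 ≤ r → r ∉ E → T f r ≤ C * (N₁ (W g) r +
          N₁ (fun z => eval (fun j => f j z) Q) r + Real.log r) := by
  refine ⟨?_, ?_, ?_⟩
  · intro p K _ _ w y hy hL c hc
    have hq : ∃ z, eval (c.f z) Q ≠ 0 := by
      by_contra hcon
      push Not at hcon
      exact hy.sub.off (hy.sub.mem Q ((hc Q ⟨d, hQ⟩).2 hcon))
    exact (c.bound_iff hq).2 (c.datum.gt hQ hy hL (fun F hF hFh => (hc F hFh).1 hF)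
      fun F hFh h => (hc F hFh).2 h)
  · intro p hp A hA hS c hI hcA hcQ
    unfold Curve.On at hcA hcQ
    push Not at hcA hcQ
    exact (c.bound_iff hcQ).2 (c.datum.sub hQ hp hA hS hI hcQ hcA)
  · intro f hf h0 n g hg hs hB
    obtain ⟨C, E, hE, hb⟩ := hB (1 / 2) (by norm_num)
    have hself : (fun (j : Fin (N + 1)) (z : ℂ) => (Curve.self f hf h0 g hg hs).f z j) = f := by
      funext j z
      exact eval_X j
    refine ⟨2 * C, E, hE, fun r hr hrE => ?_⟩
    have h2 := hb r hr hrE
    have h3 : (fun z => eval ((Curve.self f hf h0 g hg hs).f z) Q) =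
        fun z => eval (fun j => f j z) Q := by
      funext z
      congr 2
      funext j
      exact eval_X j
    rw [hself, h3] at h2
    have h4 : T (Curve.self f hf h0 g hg hs).G r = T f r := rfl
    have h5 : W (Curve.self f hf h0 g hg hs).g = W g := rfl
    rw [h4, h5] at h2
    linarith

end Pool.Agent.Results.MP_64ff02_ag.WronskianRamification
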